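import Pool.Agent.P8H50.NK.Stm

/-!
# Project NK, packages LIN and RES

Linear algebra with weights in the style of Nochka.
-/

set_option autoImplicit false

namespace Pool.Agent.P8H61.NK

open Pool.Agent.P8H50.NK
open Finset

variable {n q : ℕ}

theorem span_top {M : Fin q → Fin n → ℂ} {A : Finset (Fin q)} (h : rk M A = n) :
    Submodule.span ℂ (M '' (A : Set (Fin q))) = ⊤ := by
  apply Submodule.eq_top_of_finrank_eq
  rw [Module.finrank_fin_fun]
  exact h

theorem rk_le (M : Fin q → Fin n → ℂ) (A : Finset (Fin q)) : rk M A ≤ n := by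
  have h := Submodule.finrank_le (Submodule.span ℂ (M '' (A : Set (Fin q))))
  rw [Module.finrank_fin_fun] at h
  exact h

/-- Package RES. -/
theorem res : S_RES := by
  intro n k q M A B hBA S hS
  let T : (Fin n → ℂ) →ₗ[ℂ] (Fin k → ℂ) :=
    { toFun := fun v l => ∑ i, v i * A i l
      map_add' := by
        intro v w
        funext l
        simp [add_mul, Finset.sum_add_distrib]
      map_smul' := by
        intro c v
        funext l
        simp [mul_assoc, Finset.mul_sum] }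
  have hT : Function.Surjective T := by
    intro u
    refine ⟨∑ l, u l • B l, ?_⟩
    rw [map_sum]
    funext l'
    rw [Finset.sum_apply]
    have h1 : ∀ l, (T (u l • B l)) l' = if l = l' then u l else 0 := by
      intro l
      rw [map_smul, Pi.smul_apply, smul_eq_mul]
      change u l * (∑ i, B l i * A i l') = _
      rw [hBA]
      split_ifs <;> simp
    rw [Finset.sum_congr rfl (fun l _ => h1 l)]
    simp
  have h1 : (fun j l => ∑ i, M j i * A i l) = fun j => T (M j) := rfl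
  have h2 : Submodule.span ℂ ((fun j => T (M j)) '' (S : Set (Fin q))) = ⊤ := by
    have h3 : (fun j => T (M j)) '' (S : Set (Fin q)) = T '' (M '' (S : Set (Fin q))) := by
      rw [Set.image_image]
    rw [h3, Submodule.span_image, span_top hS, Submodule.map_top, LinearMap.range_eq_top.2 hT]
  change Module.finrank ℂ (Submodule.span ℂ ((fun j l => ∑ i, M j i * A i l) ''
    (S : Set (Fin q)))) = k
  rw [h1, h2, finrank_top, Module.finrank_fin_fun]

/-- vectors which span the space separate -/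
theorem eq_zero_of_pair {M : Fin q → Fin n → ℂ} {A : Finset (Fin q)} (h : rk M A = n)
    {v : Fin n → ℂ} (hv : ∀ j ∈ A, ∑ i, M j i * v i = 0) : v = 0 := by
  classical
  let φ : (Fin n → ℂ) →ₗ[ℂ] ℂ :=
    { toFun := fun a => ∑ i, a i * v i
      map_add' := by
        intro a b
        simp [add_mul, Finset.sum_add_distrib]
      map_smul' := by
        intro c a
        simp [mul_assoc, Finset.mul_sum] }
  have h1 : Submodule.span ℂ (M '' (A : Set (Fin q))) ≤ LinearMap.ker φ := by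
    rw [Submodule.span_le]
    rintro _ ⟨j, hj, rfl⟩
    exact hv j hj
  rw [span_top h] at h1
  funext i
  have h2 : φ (Pi.single i 1) = 0 :=
    h1 (Submodule.mem_top (x := (Pi.single i (1 : ℂ) : Fin n → ℂ)))
  have h3 : φ (Pi.single i 1) = v i := by
    change ∑ k, (Pi.single i (1 : ℂ) : Fin n → ℂ) k * v k = v i
    rw [Finset.sum_eq_single i]
    · simp
    · intro k _ hk
      simp [Pi.single_apply, hk]
    · intro hh
      exact absurd (Finset.mem_univ i) hh
  rw [← h3, h2]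
  rfl

/-- a lower bound for the forms of one spanning family -/
theorem lower_one (M : Fin q → Fin n → ℂ) (A : Finset (Fin q)) (h : rk M A = n) :
    ∃ δ : ℝ, 0 < δ ∧ ∀ v : Fin n → ℂ, v ≠ 0 → ∃ j ∈ A, δ * ‖v‖ ≤ ‖∑ i, M j i * v i‖ := by
  let T : (Fin n → ℂ) →ₗ[ℂ] (A → ℂ) :=
    { toFun := fun v j => ∑ i, M j i * v i
      map_add' := by
        intro a b
        funext j
        simp [mul_add, Finset.sum_add_distrib]
      map_smul' := by
        intro c a
        funext j
        simp [mul_left_comm, Finset.mul_sum] }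
  have hker : LinearMap.ker T = ⊥ := by
    rw [LinearMap.ker_eq_bot']
    intro v hv
    apply eq_zero_of_pair h
    intro j hj
    exact congrFun hv ⟨j, hj⟩
  obtain ⟨K, hK, hT⟩ := LinearMap.exists_antilipschitzWith T hker
  have hK' : (0 : ℝ) < K := by exact_mod_cast hK
  refine ⟨(K : ℝ)⁻¹, inv_pos.2 hK', fun v hv => ?_⟩
  by_contra hcon
  push Not at hcon
  have hv0 : 0 < ‖v‖ := norm_pos_iff.2 hv
  have h1 : ‖T v‖ < (K : ℝ)⁻¹ * ‖v‖ := by
    rw [pi_norm_lt_iff (by positivity)]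
    intro j
    exact hcon j.1 j.2
  have h2 := hT.le_mul_dist v 0
  rw [map_zero, dist_zero_right, dist_zero_right] at h2
  have h3 : (K : ℝ) * ‖T v‖ < K * ((K : ℝ)⁻¹ * ‖v‖) := mul_lt_mul_of_pos_left h1 hK'
  rw [← mul_assoc, mul_inv_cancel₀ hK'.ne', one_mul] at h3
  linarith

theorem lower_all (M : Fin q → Fin n → ℂ) :
    ∃ δ : ℝ, 0 < δ ∧ δ ≤ 1 ∧ ∀ A : Finset (Fin q), rk M A = n → ∀ v : Fin n → ℂ, v ≠ 0 →
      ∃ j ∈ A, δ * ‖v‖ ≤ ‖∑ i, M j i * v i‖ := by
  classical
  have h0 : ∀ A : Finset (Fin q), ∃ δ : ℝ, 0 < δ ∧ (rk M A = n → ∀ v : Fin n → ℂ, v ≠ 0 →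
      ∃ j ∈ A, δ * ‖v‖ ≤ ‖∑ i, M j i * v i‖) := by
    intro A
    by_cases hA : rk M A = n
    · obtain ⟨δ, h1, h2⟩ := lower_one M A hA
      exact ⟨δ, h1, fun _ => h2⟩
    · exact ⟨1, one_pos, fun h => absurd h hA⟩
  choose d hd hd' using h0
  obtain ⟨A₀, -, hA₀⟩ := Finset.exists_min_image (Finset.univ : Finset (Finset (Fin q))) d
    ⟨∅, Finset.mem_univ _⟩
  refine ⟨min (d A₀) 1, lt_min (hd A₀) one_pos, min_le_right _ _, fun A hA v hv => ?_⟩
  obtain ⟨j, hj, h1⟩ := hd' A hA v hv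
  refine ⟨j, hj, le_trans ?_ h1⟩
  refine mul_le_mul_of_nonneg_right ?_ (norm_nonneg v)
  exact (min_le_left _ _).trans (hA₀ A (Finset.mem_univ A))

/-- Package LIN. -/
theorem lin : S_LIN := by
  classical
  intro n q M ω hW
  obtain ⟨δ, hδ0, hδ1, hδ⟩ := lower_all M
  obtain ⟨K, hK1, hK⟩ : ∃ K : ℝ, 1 ≤ K ∧ ∀ j (v : Fin n → ℂ),
      ‖∑ i, M j i * v i‖ ≤ K * ‖v‖ := by
    refine ⟨1 + ∑ j, ∑ i, ‖M j i‖, ?_, fun j v => ?_⟩
    · have : 0 ≤ ∑ j, ∑ i, ‖M j i‖ :=
        Finset.sum_nonneg fun j _ => Finset.sum_nonneg fun i _ => norm_nonneg _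
      linarith
    · refine (norm_sum_le _ _).trans ?_
      have h1 : ∑ i, ‖M j i * v i‖ ≤ (∑ i, ‖M j i‖) * ‖v‖ := by
        rw [Finset.sum_mul]
        refine Finset.sum_le_sum fun i _ => ?_
        rw [norm_mul]
        exact mul_le_mul_of_nonneg_left (norm_le_pi_norm v i) (norm_nonneg _)
      have h2 : ∑ i, ‖M j i‖ ≤ ∑ j, ∑ i, ‖M j i‖ :=
        Finset.single_le_sum (f := fun j => ∑ i, ‖M j i‖)
          (fun j _ => Finset.sum_nonneg fun i _ => norm_nonneg _) (Finset.mem_univ j)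
      have h3 := mul_le_mul_of_nonneg_right h2 (norm_nonneg v)
      have h4 := norm_nonneg v
      nlinarith
  have hK0 : 0 < K := by linarith
  refine ⟨((n : ℝ) - ∑ j, ω j) * Real.log K + (∑ j, ω j) * Real.log (K / δ), fun v hv hpv => ?_⟩
  have hv0 : 0 < ‖v‖ := norm_pos_iff.2 hv
  have hp0 : ∀ j, 0 < ‖∑ i, M j i * v i‖ := fun j => norm_pos_iff.2 (hpv j)
  set p : Fin q → ℝ := fun j => ‖∑ i, M j i * v i‖ with hp
  set Λ : Fin q → ℝ := fun j => Real.log (K * ‖v‖ / p j) with hΛ
  have hΛ0 : ∀ j, 0 ≤ Λ j := fun j => Real.log_nonneg (by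
    rw [le_div_iff₀ (hp0 j), one_mul]
    exact hK j v)
  have hΛe : ∀ j, Λ j = Real.log K + Real.log ‖v‖ - Real.log (p j) := by
    intro j
    rw [hΛ]
    simp only
    rw [Real.log_div (by positivity) (hp0 j).ne', Real.log_mul hK0.ne' hv0.ne']
  set R : Finset (Fin q) := Finset.univ.filter (fun j => p j < δ * ‖v‖) with hR
  have hRrk : rk M R < n := by
    rcases lt_or_eq_of_le (rk_le M R) with h | h
    · exact h
    · obtain ⟨j, hj, h1⟩ := hδ R h v hv
      have h2 := (Finset.mem_filter.1 hj).2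
      exact absurd h1 (not_le.2 h2)
  have hΛR : ∀ j ∈ R, 0 < Λ j := by
    intro j hj
    have h2 := (Finset.mem_filter.1 hj).2
    refine Real.log_pos ?_
    rw [lt_div_iff₀ (hp0 j), one_mul]
    refine lt_of_lt_of_le h2 ?_
    exact mul_le_mul_of_nonneg_right (by linarith) hv0.le
  obtain ⟨b, hbR, hbI, hbsum⟩ := Pool.Agent.N750.greedy (F := ℂ) M ω _ R rfl Λ hΛ0 hΛR (by
    intro A' hA'
    refine hW.le A' (lt_of_le_of_lt ?_ hRrk)
    exact Pool.Agent.N750.rk_mono M A' R hA')
  -- a basis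
  obtain ⟨t, -, hbt, hspan, htI⟩ := exists_linearIndepOn_extension hbI
    (Set.subset_univ (b : Set (Fin q)))
  have htf : t.Finite := Set.toFinite t
  set b' := htf.toFinset with hb'
  have hbt' : (b' : Set (Fin q)) = t := htf.coe_toFinset
  have hbb' : b ⊆ b' := by
    have : (b : Set (Fin q)) ⊆ (b' : Set (Fin q)) := hbt' ▸ hbt
    exact_mod_cast this
  rw [← hbt'] at htI hspan
  have hcard : b'.card = n := by
    have h1 := Pool.Agent.N750.rk_indep (F := ℂ) M b' htI
    rw [← h1]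
    refine le_antisymm (rk_le M b') ?_
    have h2 : rk M Finset.univ ≤ rk M b' := by
      unfold rk Pool.Agent.N750.rk
      refine Submodule.finrank_mono (Submodule.span_le.2 ?_)
      rw [Finset.coe_univ]
      exact hspan
    exact hW.full.symm.le.trans h2
  let ε : b' ≃ Fin n := b'.equivFinOfCardEq hcard
  refine ⟨fun l => (ε.symm l : Fin q), ?_, ?_⟩
  · have h1 : LinearIndependent ℂ (fun l => M (ε.symm l : Fin q)) := by
      have h2 : LinearIndependent ℂ (fun c : b' => M c) := htI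
      exact h2.comp ε.symm ε.symm.injective
    have h3 : IsUnit (Matrix.of fun i => M (ε.symm i : Fin q)) :=
      Matrix.linearIndependent_rows_iff_isUnit.1 h1
    exact ((Matrix.isUnit_iff_isUnit_det _).1 h3).ne_zero
  · have hsum1 : ∑ l, Real.log (p (ε.symm l : Fin q)) = ∑ j ∈ b', Real.log (p j) := by
      rw [← Finset.sum_coe_sort b' (fun j => Real.log (p j))]
      exact Equiv.sum_comp ε.symm (fun c : b' => Real.log (p c))
    change _ ≤ ∑ j, ω j * Real.log (p j) - ∑ l, Real.log (p (ε.symm l : Fin q)) + _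
    rw [hsum1]
    have hA : ∑ j, ω j * Λ j = (∑ j, ω j) * (Real.log K + Real.log ‖v‖) -
        ∑ j, ω j * Real.log (p j) := by
      rw [Finset.sum_mul, ← Finset.sum_sub_distrib]
      refine Finset.sum_congr rfl fun j _ => ?_
      rw [hΛe]
      ring
    have hB : ∑ j ∈ b', Λ j = n * (Real.log K + Real.log ‖v‖) - ∑ j ∈ b', Real.log (p j) := by
      rw [Finset.sum_congr rfl (fun j _ => hΛe j), Finset.sum_sub_distrib, Finset.sum_const,
        hcard, nsmul_eq_mul]
    have hC : ∑ j ∈ b, Λ j ≤ ∑ j ∈ b', Λ j :=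
      Finset.sum_le_sum_of_subset_of_nonneg hbb' fun j _ _ => hΛ0 j
    have hlogKδ : 0 ≤ Real.log (K / δ) := Real.log_nonneg (by
      rw [le_div_iff₀ hδ0]
      linarith)
    have hD : ∑ j ∈ Rᶜ, ω j * Λ j ≤ (∑ j, ω j) * Real.log (K / δ) := by
      rw [Finset.sum_mul]
      refine (Finset.sum_le_sum (g := fun j => ω j * Real.log (K / δ)) fun j hj => ?_).trans
        (Finset.sum_le_sum_of_subset_of_nonneg (Finset.subset_univ _)
          fun j _ _ => mul_nonneg (hW.nonneg j) hlogKδ)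
      refine mul_le_mul_of_nonneg_left ?_ (hW.nonneg j)
      have h2 : ¬ p j < δ * ‖v‖ := fun h =>
        Finset.mem_compl.1 hj (Finset.mem_filter.2 ⟨Finset.mem_univ _, h⟩)
      rw [not_lt] at h2
      refine Real.log_le_log (div_pos (by positivity) (hp0 j)) ?_
      rw [div_le_div_iff₀ (hp0 j) hδ0]
      nlinarith
    have hE : ∑ j, ω j * Λ j = ∑ j ∈ R, ω j * Λ j + ∑ j ∈ Rᶜ, ω j * Λ j :=
      (Finset.sum_add_sum_compl R _).symm
    have hF : (∑ j, ω j) * (Real.log K + Real.log ‖v‖) - ∑ j, ω j * Real.log (p j) ≤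
        n * (Real.log K + Real.log ‖v‖) - ∑ j ∈ b', Real.log (p j) +
          (∑ j, ω j) * Real.log (K / δ) := by
      rw [← hA, ← hB, hE]
      linarith
    nlinarith

end Pool.Agent.P8H61.NK
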