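import Pool.Agent.P8H50.NK.Stm
import Pool.Agent.H159R3.NV.Wron

/-!
# Project NK, packages WRN and WRB

The Wronskian of linearly independent entire functions, and of linear combinations.
-/

set_option autoImplicit false

namespace Pool.Agent.P8H61.NK

open Pool.Agent.P8H50.NK
open Pool.Agent.H159R3.NV (Ent Dv Dv_iter wron_dep)
open Finset

/-- evaluation of entire functions -/
noncomputable def evz (z : ℂ) : Ent →+* ℂ :=
  (Pi.evalRingHom (fun _ : ℂ => ℂ) z).comp (Ent.val : Ent →ₐ[ℂ] (ℂ → ℂ)).toRingHom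

theorem evz_apply (z : ℂ) (f : Ent) : evz z f = (f : ℂ → ℂ) z := rfl

/-- Package WRN. -/
theorem wrn : S_WRN := by
  intro n f hf
  let F : Fin n → Ent := fun i => ⟨f i, hf.diff i⟩
  let W : Ent := (Matrix.of fun b l : Fin n => ((Dv : Ent → Ent)^[(l : ℕ)]) (F b)).det
  have hW : ∀ z, (W : ℂ → ℂ) z = wr f z := by
    intro z
    change evz z W = _
    rw [RingHom.map_det]
    unfold wr
    congr 1
    ext b l
    change ((((Dv : Ent → Ent)^[(l : ℕ)]) (F b) : Ent) : ℂ → ℂ) z = _
    rw [Dv_iter]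
    rfl
  have hW' : (W : ℂ → ℂ) = wr f := funext hW
  refine ⟨hW' ▸ W.2, ?_⟩
  by_contra hcon
  push Not at hcon
  have h0 : W = 0 := by
    apply Subtype.ext
    funext z
    rw [hW z, hcon z]
    rfl
  obtain ⟨c, hc, hsum⟩ := wron_dep n F h0
  apply hc
  apply hf.ind
  intro z
  have h1 := congrArg (evz z) hsum
  rw [map_sum, map_zero] at h1
  rw [← h1]
  unfold lf
  refine Finset.sum_congr rfl fun i _ => ?_
  rfl

theorem iter_diff {g : ℂ → ℂ} (hg : Differentiable ℂ g) (l : ℕ) :
    Differentiable ℂ (iteratedDeriv l g) := by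
  have h := hg.contDiff (n := ((l + 1 : ℕ) : WithTop ℕ∞))
  exact h.differentiable_iteratedDeriv l (by exact_mod_cast Nat.lt_succ_self _)

theorem iter_lf {n : ℕ} (b : Fin n → ℂ) (f : Fin n → ℂ → ℂ) (hf : ∀ i, Differentiable ℂ (f i))
    (l : ℕ) : iteratedDeriv l (lf b f) = lf b (fun i => iteratedDeriv l (f i)) := by
  induction l with
  | zero => simp
  | succ l ih =>
    rw [iteratedDeriv_succ, ih]
    funext z
    have h1 : lf b (fun i => iteratedDeriv l (f i)) =
        fun z => ∑ i, b i * iteratedDeriv l (f i) z := rfl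
    rw [h1, deriv_fun_sum (fun i _ => ((iter_diff (hf i) l).differentiableAt).const_mul _)]
    unfold lf
    refine Finset.sum_congr rfl fun i _ => ?_
    rw [deriv_const_mul _ (iter_diff (hf i) l).differentiableAt]
    change _ = b i * iteratedDeriv (l + 1) (f i) z
    rw [iteratedDeriv_succ]

/-- Package WRB. -/
theorem wrb : S_WRB := by
  intro n f hf B z
  unfold wr
  have h : (Matrix.of fun i l : Fin n => iteratedDeriv l (lf (B i) f) z) =
      Matrix.of B * Matrix.of fun i l : Fin n => iteratedDeriv l (f i) z := by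
    ext i l
    rw [Matrix.mul_apply, Matrix.of_apply, iter_lf (B i) f hf l]
    rfl
  rw [h, Matrix.det_mul]

end Pool.Agent.P8H61.NK
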